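import Mathlib

/-!
# Non-uniqueness for the discrete X-ray transform on perpendicular rational lines
-/

namespace Pool.Agent.Results.MP_ca57f4_an.DyadicNullFunction

noncomputable section

/-- The lattice point `y` as a point of the plane. -/
def pt (y : ℤ × ℤ) : ℝ × ℝ := ((y.1 : ℝ), (y.2 : ℝ))

/-- The Euclidean norm of a lattice point. -/
def nrm (y : ℤ × ℤ) : ℝ := Real.sqrt ((y.1 : ℝ) ^ 2 + (y.2 : ℝ) ^ 2)

/-- The lines of the problem. For `z ≠ 0` this is `{z + t (-z₂, z₁)/|z| : t ∈ ℝ}`, the line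
through `z` perpendicular to `z`. For `z = 0` it is `{t w/|w| : t ∈ ℝ}`, the line through `0` with
the rational direction `w/|w|`. -/
def gam (w z : ℤ × ℤ) : Set (ℝ × ℝ) :=
  if z = 0 then {p | ∃ t : ℝ, p = (t * (w.1 / nrm w), t * (w.2 / nrm w))}
  else {p | ∃ t : ℝ, p = ((z.1 : ℝ) + t * (-z.2 / nrm z), (z.2 : ℝ) + t * (z.1 / nrm z))}

/-- The lattice points of a subset of the plane. -/
def lat (γ : Set (ℝ × ℝ)) : Set (ℤ × ℤ) := {y | pt y ∈ γ}

/-- `m` is a power of two in absolute value. -/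
def IsPow (n : ℤ) : Prop := ∃ m : ℕ, |n| = 2 ^ m

open Classical in
/-- The function off the origin. -/
def g (y : ℤ × ℤ) : ℝ :=
  if (IsPow y.1 ∧ y.2 = 0) ∨ (y.1 = 0 ∧ IsPow y.2) then ((y.1 : ℝ) ^ 2 + (y.2 : ℝ) ^ 2)⁻¹
  else if IsPow y.1 ∧ |y.1| = |y.2| then -((y.1 : ℝ) ^ 2 + (y.2 : ℝ) ^ 2)⁻¹ else 0

/-- The support of `g`. -/
def S (y : ℤ × ℤ) : Prop :=
  (IsPow y.1 ∧ y.2 = 0) ∨ (y.1 = 0 ∧ IsPow y.2) ∨ (IsPow y.1 ∧ |y.1| = |y.2|)

lemma isPow_ne {n : ℤ} (h : IsPow n) : n ≠ 0 := by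
  rintro rfl
  obtain ⟨m, hm⟩ := h
  have : (0 : ℤ) < 2 ^ m := by positivity
  rw [abs_zero] at hm
  omega

lemma g_eq_zero {y : ℤ × ℤ} (h : ¬ S y) : g y = 0 := by
  unfold g
  rw [if_neg, if_neg]
  · intro h'; exact h (Or.inr (Or.inr h'))
  · rintro (h' | h')
    · exact h (Or.inl h')
    · exact h (Or.inr (Or.inl h'))

lemma sq_four (m : ℕ) : ∀ a b : ℤ, a ^ 2 + b ^ 2 = 4 ^ m →
    (|a| = 2 ^ m ∧ b = 0) ∨ (a = 0 ∧ |b| = 2 ^ m) := by
  induction m with
  | zero =>
    intro a b h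
    have ha : |a| ≤ 1 := by
      have : a ^ 2 ≤ 1 ^ 2 := by nlinarith [sq_nonneg b]
      exact abs_le_of_sq_le_sq this (by norm_num)
    have hb : |b| ≤ 1 := by
      have : b ^ 2 ≤ 1 ^ 2 := by nlinarith [sq_nonneg a]
      exact abs_le_of_sq_le_sq this (by norm_num)
    obtain ⟨ha1, ha2⟩ := abs_le.1 ha
    obtain ⟨hb1, hb2⟩ := abs_le.1 hb
    interval_cases a <;> interval_cases b <;> simp_all
  | succ m ih =>
    intro a b h
    have h4 : (4 : ℤ) ∣ a ^ 2 + b ^ 2 := ⟨4 ^ m, by rw [h, pow_succ]; ring⟩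
    have hpar : Even a ∧ Even b := by
      rcases Int.even_or_odd' a with ⟨k, rfl | rfl⟩ <;> rcases Int.even_or_odd' b with ⟨l, rfl | rfl⟩
      · simp
      · exfalso
        obtain ⟨c, hc⟩ := h4
        ring_nf at hc
        omega
      · exfalso
        obtain ⟨c, hc⟩ := h4
        ring_nf at hc
        omega
      · exfalso
        obtain ⟨c, hc⟩ := h4
        ring_nf at hc
        omega
    obtain ⟨⟨k, rfl⟩, ⟨l, rfl⟩⟩ := hpar
    have hkl : k ^ 2 + l ^ 2 = 4 ^ m := by
      have : 4 * (k ^ 2 + l ^ 2) = 4 * 4 ^ m := by rw [← pow_succ']; linarith [h, pow_succ (4 : ℤ) m]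
      linarith
    rcases ih k l hkl with ⟨h1, h2⟩ | ⟨h1, h2⟩
    · left
      refine ⟨?_, by rw [h2]; rfl⟩
      rw [← two_mul, abs_mul, h1, pow_succ]; norm_num; ring
    · right
      refine ⟨by rw [h1]; rfl, ?_⟩
      rw [← two_mul, abs_mul, h2, pow_succ]; norm_num; ring

lemma sq_two_four (m : ℕ) (a b : ℤ) (h : a ^ 2 + b ^ 2 = 2 * 4 ^ m) :
    |a| = 2 ^ m ∧ |b| = 2 ^ m := by
  have hpar : Even (a + b) ∧ Even (a - b) := by
    have h2 : Even (a ^ 2 + b ^ 2) := ⟨4 ^ m, by rw [h]; ring⟩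
    constructor
    · simpa [Int.even_add, Int.even_pow] using h2
    · rw [Int.even_sub]; simpa [Int.even_add, Int.even_pow] using h2
  obtain ⟨⟨k, hk⟩, ⟨l, hl⟩⟩ := hpar
  have ha : a = k + l := by omega
  have hb : b = k - l := by omega
  have hkl : k ^ 2 + l ^ 2 = 4 ^ m := by
    rw [ha, hb] at h; nlinarith
  rcases sq_four m k l hkl with ⟨h1, h2⟩ | ⟨h1, h2⟩
  · subst h2; simp_all
  · subst h1; simp_all

/-- The key fact: a lattice point of the support on the line through `z` perpendicular to `z` is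
one of `z`, `(1+i)z`, `(1-i)z`, and `z` is in the support. -/
lemma key {y z : ℤ × ℤ} (hz : z ≠ 0) (hy : S y)
    (h : y.1 * z.1 + y.2 * z.2 = z.1 ^ 2 + z.2 ^ 2) :
    S z ∧ (y = z ∨ y = (z.1 - z.2, z.2 + z.1) ∨ y = (z.1 + z.2, z.2 - z.1)) := by
  obtain ⟨y1, y2⟩ := y
  obtain ⟨z1, z2⟩ := z
  simp only [ne_eq, Prod.mk_eq_zero, not_and] at hz
  simp only [S, Prod.mk.injEq] at *
  rcases hy with ⟨⟨m, hm⟩, h2⟩ | ⟨h1, ⟨m, hm⟩⟩ | ⟨⟨m, hm⟩, h2⟩
  · subst h2
    have e1 : (2 * z1 - y1) ^ 2 + (2 * z2) ^ 2 = 4 ^ m := by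
      have : y1 ^ 2 = 4 ^ m := by rw [← sq_abs, hm, ← pow_mul, mul_comm, pow_mul]; norm_num
      nlinarith
    rcases sq_four m _ _ e1 with ⟨h1, h2⟩ | ⟨h1, h2⟩
    · have hz2 : z2 = 0 := by omega
      subst hz2
      rw [← hm] at h1
      rcases abs_eq_abs.1 h1 with h3 | h3
      · have : z1 = y1 := by omega
        subst this
        exact ⟨Or.inl ⟨⟨m, hm⟩, rfl⟩, Or.inl ⟨rfl, rfl⟩⟩
      · exact absurd rfl (hz (by omega))
    · have hy1 : y1 = 2 * z1 := by omega
      subst hy1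
      have hab : |z1| = |z2| := by
        rw [abs_mul] at h2 hm
        rw [← hm] at h2
        simpa using h2.symm
      have hpow : IsPow z1 := by
        cases m with
        | zero => rw [abs_mul] at hm; simp at hm; omega
        | succ m =>
          refine ⟨m, ?_⟩
          rw [abs_mul, pow_succ'] at hm
          simpa using hm
      refine ⟨Or.inr (Or.inr ⟨hpow, hab⟩), ?_⟩
      rcases abs_eq_abs.1 hab with h3 | h3
      · subst h3; right; right; constructor <;> ring
      · have : z2 = - z1 := by omega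
        subst this; right; left; constructor <;> ring
  · subst h1
    have e1 : (2 * z1) ^ 2 + (2 * z2 - y2) ^ 2 = 4 ^ m := by
      have : y2 ^ 2 = 4 ^ m := by rw [← sq_abs, hm, ← pow_mul, mul_comm, pow_mul]; norm_num
      nlinarith
    rcases sq_four m _ _ e1 with ⟨h1, h2⟩ | ⟨h1, h2⟩
    · have hy1 : y2 = 2 * z2 := by omega
      subst hy1
      have hab : |z1| = |z2| := by
        rw [abs_mul] at h1 hm
        rw [← hm] at h1
        simpa using h1
      have hpow : IsPow z1 := by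
        cases m with
        | zero => rw [abs_mul] at hm; simp at hm; omega
        | succ m =>
          refine ⟨m, ?_⟩
          rw [abs_mul, pow_succ'] at hm
          rw [hab]
          simpa using hm
      refine ⟨Or.inr (Or.inr ⟨hpow, hab⟩), ?_⟩
      rcases abs_eq_abs.1 hab with h3 | h3
      · subst h3; right; left; constructor <;> ring
      · have : z2 = - z1 := by omega
        subst this; right; right; constructor <;> ring
    · have hz1 : z1 = 0 := by omega
      subst hz1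
      rw [← hm] at h2
      rcases abs_eq_abs.1 h2 with h3 | h3
      · have : z2 = y2 := by omega
        subst this
        exact ⟨Or.inr (Or.inl ⟨rfl, ⟨m, hm⟩⟩), Or.inl ⟨rfl, rfl⟩⟩
      · exact absurd (by omega) (hz rfl)
  · have hy1 : y1 ^ 2 = 4 ^ m := by rw [← sq_abs, hm, ← pow_mul, mul_comm, pow_mul]; norm_num
    have hy2 : y2 ^ 2 = 4 ^ m := by rw [← sq_abs, ← h2, sq_abs, hy1]
    have e1 : (2 * z1 - y1) ^ 2 + (2 * z2 - y2) ^ 2 = 2 * 4 ^ m := by nlinarith
    obtain ⟨h3, h4⟩ := sq_two_four m _ _ e1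
    rw [← hm] at h3
    rw [← hm, h2] at h4
    rcases abs_eq_abs.1 h3 with h5 | h5 <;> rcases abs_eq_abs.1 h4 with h6 | h6
    · have a1 : z1 = y1 := by omega
      have a2 : z2 = y2 := by omega
      subst a1; subst a2
      exact ⟨Or.inr (Or.inr ⟨⟨m, hm⟩, h2⟩), Or.inl ⟨rfl, rfl⟩⟩
    · have a1 : z1 = y1 := by omega
      have a2 : z2 = 0 := by omega
      subst a1; subst a2
      refine ⟨Or.inl ⟨⟨m, hm⟩, rfl⟩, ?_⟩
      rcases abs_eq_abs.1 h2 with h7 | h7
      · right; left; constructor <;> omega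
      · right; right; constructor <;> omega
    · have a1 : z1 = 0 := by omega
      have a2 : z2 = y2 := by omega
      subst a1; subst a2
      refine ⟨Or.inr (Or.inl ⟨rfl, ⟨m, by rw [← h2, hm]⟩⟩), ?_⟩
      rcases abs_eq_abs.1 h2 with h7 | h7
      · right; right; constructor <;> omega
      · right; left; constructor <;> omega
    · have a1 : z1 = 0 := by omega
      have a2 : z2 = 0 := by omega
      exact absurd a2 (hz a1)

lemma nrm_pos {z : ℤ × ℤ} (hz : z ≠ 0) : 0 < nrm z := by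
  unfold nrm
  apply Real.sqrt_pos.2
  by_contra hcon
  push Not at hcon
  apply hz
  have h1 : (z.1 : ℝ) ^ 2 = 0 := by nlinarith [sq_nonneg (z.1 : ℝ), sq_nonneg (z.2 : ℝ)]
  have h2 : (z.2 : ℝ) ^ 2 = 0 := by nlinarith [sq_nonneg (z.1 : ℝ), sq_nonneg (z.2 : ℝ)]
  ext
  · simpa using h1
  · simpa using h2

lemma nrm_sq (z : ℤ × ℤ) : nrm z ^ 2 = (z.1 : ℝ) ^ 2 + (z.2 : ℝ) ^ 2 := by
  unfold nrm; rw [Real.sq_sqrt (by positivity)]

lemma mem_lat {w z y : ℤ × ℤ} (hz : z ≠ 0) :
    y ∈ lat (gam w z) ↔ y.1 * z.1 + y.2 * z.2 = z.1 ^ 2 + z.2 ^ 2 := by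
  have hn := nrm_pos hz
  have hs := nrm_sq z
  simp only [lat, gam, if_neg hz, pt, Set.mem_ofPred_eq, Prod.mk.injEq]
  constructor
  · rintro ⟨t, h1, h2⟩
    have : (y.1 : ℝ) * z.1 + y.2 * z.2 = (z.1 : ℝ) ^ 2 + (z.2 : ℝ) ^ 2 := by
      rw [h1, h2]; field_simp; ring
    exact_mod_cast this
  · intro h
    have h' : (y.1 : ℝ) * z.1 + y.2 * z.2 = (z.1 : ℝ) ^ 2 + (z.2 : ℝ) ^ 2 := by exact_mod_cast h
    refine ⟨(-(y.1 : ℝ) * z.2 + y.2 * z.1) / nrm z, ?_, ?_⟩
    · have : (-(y.1 : ℝ) * z.2 + y.2 * z.1) / nrm z * (-z.2 / nrm z)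
          = ((y.1 : ℝ) * z.2 ^ 2 - y.2 * z.1 * z.2) / nrm z ^ 2 := by field_simp; ring
      rw [this, hs]
      have h0 : (z.1 : ℝ) ^ 2 + (z.2 : ℝ) ^ 2 ≠ 0 := by rw [← hs]; positivity
      field_simp
      linear_combination (z.1 : ℝ) * h'
    · have : (-(y.1 : ℝ) * z.2 + y.2 * z.1) / nrm z * (z.1 / nrm z)
          = (-(y.1 : ℝ) * z.1 * z.2 + y.2 * z.1 ^ 2) / nrm z ^ 2 := by field_simp
      rw [this, hs]
      have h0 : (z.1 : ℝ) ^ 2 + (z.2 : ℝ) ^ 2 ≠ 0 := by rw [← hs]; positivity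
      field_simp
      linear_combination (z.2 : ℝ) * h'

open Classical in
/-- a summable majorant in one variable -/
def h1 (n : ℕ) : ℝ := if ∃ m : ℕ, n = 2 ^ m then ((n : ℝ))⁻¹ else 0

lemma h1_summable : Summable h1 := by
  have hinj : Function.Injective (fun m : ℕ => 2 ^ m) := Nat.pow_right_injective le_rfl
  rw [← hinj.summable_iff (f := h1)]
  · have : (h1 ∘ fun m : ℕ => 2 ^ m) = fun m => (1 / 2 : ℝ) ^ m := by
      funext m
      simp only [Function.comp, h1]
      rw [if_pos ⟨m, rfl⟩]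
      push_cast
      rw [one_div, inv_pow]
    rw [this]
    exact summable_geometric_of_lt_one (by norm_num) (by norm_num)
  · intro n hn
    unfold h1
    rw [if_neg]
    rintro ⟨m, hm⟩
    exact hn ⟨m, hm.symm⟩

def h2 (n : ℤ) : ℝ := if n = 0 then 1 else h1 n.natAbs

lemma h2_summable : Summable h2 := by
  have hu : h2 = (fun n : ℤ => if n = 0 then 1 - h1 0 else 0) + fun n : ℤ => h1 n.natAbs := by
    funext n
    simp only [h2, Pi.add_apply]
    split_ifs with h
    · subst h; simp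
    · simp
  rw [hu]
  apply Summable.add
  · exact summable_of_ne_finset_zero (s := {0}) (fun b hb => by
      rw [if_neg]; simpa using hb)
  · apply Summable.of_nat_of_neg
    · simpa using h1_summable
    · simpa using h1_summable

lemma h1_nonneg (n : ℕ) : 0 ≤ h1 n := by unfold h1; split_ifs <;> positivity

lemma h2_nonneg (n : ℤ) : 0 ≤ h2 n := by
  unfold h2; split_ifs
  · norm_num
  · exact h1_nonneg _

lemma h2_pow {n : ℤ} (h : IsPow n) : h2 n = (|(n : ℝ)|)⁻¹ := by
  unfold h2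
  rw [if_neg (isPow_ne h)]
  obtain ⟨m, hm⟩ := h
  have : n.natAbs = 2 ^ m := by
    zify; exact hm
  unfold h1
  rw [if_pos ⟨m, this⟩]
  congr 1
  rw [← Int.cast_abs, ← Int.natCast_natAbs]
  simp

lemma g_bound (y : ℤ × ℤ) : |g y| ≤ h2 y.1 * h2 y.2 := by
  by_cases hS : S y
  · have hg : |g y| ≤ ((y.1 : ℝ) ^ 2 + (y.2 : ℝ) ^ 2)⁻¹ := by
      unfold g
      split_ifs
      · rw [abs_of_nonneg (by positivity)]
      · rw [abs_neg, abs_of_nonneg (by positivity)]
      · rw [abs_zero]; positivity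
    refine hg.trans ?_
    rcases hS with ⟨h1, h2'⟩ | ⟨h1, h2'⟩ | ⟨h1, h2'⟩
    · rw [h2', h2_pow h1]
      obtain ⟨m, hm⟩ := h1
      have hm' : |(y.1 : ℝ)| = 2 ^ m := by exact_mod_cast hm
      have h0 : h2 0 = 1 := by simp [h2]
      rw [h0, mul_one, ← sq_abs, hm']
      have : (1 : ℝ) ≤ 2 ^ m := one_le_pow₀ (by norm_num)
      simp only [Int.cast_zero, ne_eq, OfNat.ofNat_ne_zero, not_false_eq_true, zero_pow, add_zero]
      apply inv_anti₀ (by positivity)
      nlinarith
    · rw [h1, h2_pow h2']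
      obtain ⟨m, hm⟩ := h2'
      have hm' : |(y.2 : ℝ)| = 2 ^ m := by exact_mod_cast hm
      have h0 : h2 0 = 1 := by simp [h2]
      rw [h0, one_mul, ← sq_abs (y.2 : ℝ), hm']
      have : (1 : ℝ) ≤ 2 ^ m := one_le_pow₀ (by norm_num)
      simp only [Int.cast_zero, ne_eq, OfNat.ofNat_ne_zero, not_false_eq_true, zero_pow, zero_add]
      apply inv_anti₀ (by positivity)
      nlinarith
    · have h3 : IsPow y.2 := by
        obtain ⟨m, hm⟩ := h1
        exact ⟨m, by rw [← h2', hm]⟩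
      have h4 : |(y.1 : ℝ)| = |(y.2 : ℝ)| := by exact_mod_cast h2'
      rw [h2_pow h1, h2_pow h3, ← h4, ← mul_inv, ← sq_abs, ← sq_abs (y.2 : ℝ), ← h4]
      have : 0 < |(y.1 : ℝ)| := abs_pos.2 (by exact_mod_cast isPow_ne h1)
      apply inv_anti₀ (by positivity)
      nlinarith
  · rw [g_eq_zero hS, abs_zero]
    exact mul_nonneg (h2_nonneg _) (h2_nonneg _)

lemma g_summable : Summable fun y => (g y : ℂ) := by
  have h : Summable fun y : ℤ × ℤ => h2 y.1 * h2 y.2 :=
    h2_summable.mul_of_nonneg h2_summable h2_nonneg h2_nonneg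
  refine Summable.of_norm_bounded h fun y => ?_
  simpa using g_bound y

/-- the function -/
def f (w : ℤ × ℤ) (y : ℤ × ℤ) : ℂ :=
  if y = 0 then - ∑' x : lat (gam w 0), (g x : ℂ) else (g y : ℂ)

lemma g_zero : g 0 = 0 := by
  apply g_eq_zero
  rintro (⟨h, -⟩ | ⟨-, h⟩ | ⟨h, -⟩) <;> exact isPow_ne h rfl

lemma f_eq (w : ℤ × ℤ) : f w = fun y => (g y : ℂ) +
    (if y = 0 then - ∑' x : lat (gam w 0), (g x : ℂ) else 0) := by
  funext y
  unfold f
  split_ifs with h
  · subst h; rw [g_zero]; simp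
  · simp

lemma f_summable (w : ℤ × ℤ) : Summable (f w) := by
  rw [f_eq]
  exact g_summable.add (summable_of_ne_finset_zero (s := {0}) (fun b hb => by
      rw [if_neg]; simpa using hb))

lemma S_mul {z : ℤ × ℤ} (h : S z) : S (z.1 - z.2, z.2 + z.1) ∧ S (z.1 + z.2, z.2 - z.1) := by
  obtain ⟨z1, z2⟩ := z
  simp only [S] at *
  rcases h with ⟨h1, rfl⟩ | ⟨rfl, h2⟩ | ⟨⟨m, hm⟩, h2⟩
  · exact ⟨Or.inr (Or.inr (by simpa using h1)), Or.inr (Or.inr (by simpa using h1))⟩
  · constructor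
    · right; right
      simp only [zero_sub, add_zero, abs_neg]
      refine ⟨?_, trivial⟩
      obtain ⟨m, hm⟩ := h2
      exact ⟨m, by rw [abs_neg, hm]⟩
    · right; right
      simp only [zero_add, sub_zero]
      exact ⟨h2, trivial⟩
  · rcases abs_eq_abs.1 h2 with rfl | h3
    · constructor
      · right; left
        refine ⟨by ring, m + 1, ?_⟩
        rw [← two_mul, abs_mul, hm, pow_succ]; norm_num; ring
      · left
        refine ⟨⟨m + 1, ?_⟩, by ring⟩
        rw [← two_mul, abs_mul, hm, pow_succ]; norm_num; ring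
    · have : z2 = - z1 := by omega
      subst this
      constructor
      · left
        refine ⟨⟨m + 1, ?_⟩, by ring⟩
        rw [sub_neg_eq_add, ← two_mul, abs_mul, hm, pow_succ]; norm_num; ring
      · right; left
        refine ⟨by ring, m + 1, ?_⟩
        rw [show -z1 - z1 = (-2) * z1 by ring, abs_mul, hm, pow_succ]; norm_num; ring

lemma g_axis {z : ℤ × ℤ} (h : (IsPow z.1 ∧ z.2 = 0) ∨ (z.1 = 0 ∧ IsPow z.2)) :
    g z = ((z.1 : ℝ) ^ 2 + (z.2 : ℝ) ^ 2)⁻¹ := by
  unfold g; rw [if_pos h]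

lemma g_diag {z : ℤ × ℤ} (h : IsPow z.1 ∧ |z.1| = |z.2|) :
    g z = -((z.1 : ℝ) ^ 2 + (z.2 : ℝ) ^ 2)⁻¹ := by
  unfold g
  rw [if_neg, if_pos h]
  rintro (⟨-, h'⟩ | ⟨h', -⟩)
  · have := h.2; rw [h', abs_zero, abs_eq_zero] at this; exact isPow_ne h.1 this
  · exact isPow_ne h.1 h'

lemma g_sum {z : ℤ × ℤ} (h : S z) :
    g z + g (z.1 - z.2, z.2 + z.1) + g (z.1 + z.2, z.2 - z.1) = 0 := by
  obtain ⟨z1, z2⟩ := z
  simp only [S] at h
  rcases h with ⟨h1, rfl⟩ | ⟨rfl, h2⟩ | ⟨⟨m, hm⟩, h2⟩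
  · rw [g_axis (Or.inl ⟨h1, rfl⟩), g_diag, g_diag]
    · have : (z1 : ℝ) ≠ 0 := by exact_mod_cast isPow_ne h1
      push_cast
      field_simp
      ring
    · simpa using h1
    · simpa using h1
  · have hneg : IsPow (-z2) := by obtain ⟨m, hm⟩ := h2; exact ⟨m, by rw [abs_neg, hm]⟩
    rw [g_axis (Or.inr ⟨rfl, h2⟩), g_diag, g_diag]
    · have : (z2 : ℝ) ≠ 0 := by exact_mod_cast isPow_ne h2
      push_cast
      field_simp
      ring
    · simpa using h2
    · simpa using hneg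
  · have hz1 : IsPow z1 := ⟨m, hm⟩
    have h0 : (z1 : ℝ) ≠ 0 := by exact_mod_cast isPow_ne hz1
    have hp : ∀ n : ℤ, |n| = |z1| → IsPow (n + n) := by
      intro n hn
      refine ⟨m + 1, ?_⟩
      rw [← two_mul, abs_mul, hn, hm, pow_succ]; norm_num; ring
    rcases abs_eq_abs.1 h2 with rfl | h3
    · rw [g_diag ⟨hz1, rfl⟩, g_axis, g_axis]
      · push_cast
        field_simp
        ring
      · left; exact ⟨hp _ rfl, by ring⟩
      · right; exact ⟨by ring, hp _ rfl⟩
    · have : z2 = - z1 := by omega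
      subst this
      rw [g_diag ⟨hz1, by simp⟩, g_axis, g_axis]
      · push_cast
        field_simp
        ring
      · right; refine ⟨by ring, ?_⟩
        have := hp (-z1) (by simp)
        simpa [sub_eq_add_neg] using this
      · left; refine ⟨?_, by ring⟩
        have := hp z1 rfl
        simpa [sub_eq_add_neg] using this

lemma line_sum (w z : ℤ × ℤ) : ∑' y : lat (gam w z), f w y = 0 := by
  by_cases hz : z = 0
  · subst hz
    have h0 : (0 : ℤ × ℤ) ∈ lat (gam w 0) := by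
      simp only [lat, gam, if_true, pt, Set.mem_ofPred_eq]
      exact ⟨0, by simp⟩
    have e : ∀ y : lat (gam w 0), f w y = (g y : ℂ) +
        (if y = ⟨0, h0⟩ then - ∑' x : lat (gam w 0), (g x : ℂ) else 0) := by
      rintro ⟨y, hy⟩
      rw [f_eq]
      simp only [Subtype.mk.injEq]
    have hgs : Summable (fun y : lat (gam w 0) => (g y : ℂ)) := g_summable.subtype _
    rw [tsum_congr e, Summable.tsum_add hgs]
    · rw [tsum_ite_eq]; simp
    · exact summable_of_ne_finset_zero (s := {⟨0, h0⟩}) (fun b hb => by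
        rw [if_neg]; simpa using hb)
  · by_cases hS : S z
    · rw [tsum_subtype (lat (gam w z)) (f w)]
      rw [tsum_eq_sum (s := {z, (z.1 - z.2, z.2 + z.1), (z.1 + z.2, z.2 - z.1)})]
      · have hne : ∀ y ∈ lat (gam w z), y ≠ 0 := by
          rintro y hy rfl
          rw [mem_lat hz] at hy
          simp only [Prod.fst_zero, Prod.snd_zero, zero_mul, add_zero] at hy
          apply hz
          have a1 : z.1 ^ 2 = 0 := by nlinarith [sq_nonneg z.1, sq_nonneg z.2]
          have a2 : z.2 ^ 2 = 0 := by nlinarith [sq_nonneg z.1, sq_nonneg z.2]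
          ext
          · simpa using a1
          · simpa using a2
        have m1 : z ∈ lat (gam w z) := by rw [mem_lat hz]; ring
        have m2 : ((z.1 - z.2, z.2 + z.1) : ℤ × ℤ) ∈ lat (gam w z) := by rw [mem_lat hz]; ring
        have m3 : ((z.1 + z.2, z.2 - z.1) : ℤ × ℤ) ∈ lat (gam w z) := by rw [mem_lat hz]; ring
        have hz' : z.1 ≠ 0 ∨ z.2 ≠ 0 := by
          by_contra hcon
          push Not at hcon
          exact hz (Prod.ext hcon.1 hcon.2)
        rw [Finset.sum_insert, Finset.sum_insert, Finset.sum_singleton,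
          Set.indicator_of_mem m1, Set.indicator_of_mem m2, Set.indicator_of_mem m3]
        · unfold f
          rw [if_neg (hne _ m1), if_neg (hne _ m2), if_neg (hne _ m3), ← add_assoc]
          exact_mod_cast g_sum hS
        · simp only [Finset.mem_singleton, Prod.mk.injEq, not_and]
          intro _; omega
        · simp only [Finset.mem_insert, Finset.mem_singleton, not_or]
          constructor
          · intro h; have := congrArg Prod.fst h; have := congrArg Prod.snd h; simp at *; omega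
          · intro h; have := congrArg Prod.fst h; have := congrArg Prod.snd h; simp at *; omega
      · intro y hy
        by_cases hm : y ∈ lat (gam w z)
        · rw [Set.indicator_of_mem hm]
          rw [mem_lat hz] at hm
          have hSy : ¬ S y := by
            intro hSy
            obtain ⟨-, h⟩ := key hz hSy hm
            apply hy
            simp only [Finset.mem_insert, Finset.mem_singleton]
            exact h
          unfold f
          rw [if_neg, g_eq_zero hSy]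
          · simp
          · rintro rfl
            simp only [Prod.fst_zero, Prod.snd_zero, zero_mul, add_zero] at hm
            apply hz
            have a1 : z.1 ^ 2 = 0 := by nlinarith [sq_nonneg z.1, sq_nonneg z.2]
            have a2 : z.2 ^ 2 = 0 := by nlinarith [sq_nonneg z.1, sq_nonneg z.2]
            ext
            · simpa using a1
            · simpa using a2
        · rw [Set.indicator_of_notMem hm]
    · have : ∀ y : lat (gam w z), f w y = 0 := by
        rintro ⟨y, hm⟩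
        rw [mem_lat hz] at hm
        have hSy : ¬ S y := fun hSy => hS (key hz hSy hm).1
        unfold f
        rw [if_neg, g_eq_zero hSy]
        · simp
        · rintro rfl
          simp only [Prod.fst_zero, Prod.snd_zero, zero_mul, add_zero] at hm
          apply hz
          have a1 : z.1 ^ 2 = 0 := by nlinarith [sq_nonneg z.1, sq_nonneg z.2]
          have a2 : z.2 ^ 2 = 0 := by nlinarith [sq_nonneg z.1, sq_nonneg z.2]
          ext
          · simpa using a1
          · simpa using a2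
      rw [tsum_congr this, tsum_zero]

/-- The decay hypothesis: `f(x) = O(|x|^{-(1+ε)})` for some `ε > 0`. -/
def Decays (f : ℤ × ℤ → ℂ) : Prop :=
  ∃ ε : ℝ, 0 < ε ∧ ∃ C : ℝ, ∀ x : ℤ × ℤ, x ≠ 0 → ‖f x‖ ≤ C * nrm x ^ (-(1 + ε))

/-- Whatever rational direction `w/|w|` is chosen for the line `γ₀` through the origin, there is a
nonzero function on `ℤ²` satisfying the decay hypothesis, in fact `|f(x)| ≤ |x|⁻²` for `x ≠ 0`,
which is absolutely summable and whose sums over all the lines `γ_z`, `z ∈ ℤ²`, vanish. -/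
theorem result (w : ℤ × ℤ) (_hw : w ≠ 0) : ∃ f : ℤ × ℤ → ℂ, f ≠ 0 ∧ Decays f ∧
    (∀ x : ℤ × ℤ, x ≠ 0 → ‖f x‖ ≤ (nrm x ^ 2)⁻¹) ∧ (Summable fun y => ‖f y‖) ∧
    ∀ z : ℤ × ℤ, ∑' y : lat (gam w z), f y = 0 := by
  have hb : ∀ x : ℤ × ℤ, x ≠ 0 → ‖f w x‖ ≤ (nrm x ^ 2)⁻¹ := by
    intro x hx
    unfold f
    rw [if_neg hx, nrm_sq, Complex.norm_real, Real.norm_eq_abs]
    unfold g
    split_ifs
    · rw [abs_of_nonneg (by positivity)]
    · rw [abs_neg, abs_of_nonneg (by positivity)]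
    · rw [abs_zero]; positivity
  refine ⟨f w, ?_, ⟨1, one_pos, 1, ?_⟩, hb, (f_summable w).norm, line_sum w⟩
  · intro h
    have h1 := congrFun h (1, 0)
    unfold f at h1
    rw [if_neg (by simp), g_axis (Or.inl ⟨⟨0, by simp⟩, rfl⟩)] at h1
    simp at h1
  · intro x hx
    refine (hb x hx).trans_eq ?_
    rw [one_mul, show (-(1 + 1) : ℝ) = -((2 : ℕ) : ℝ) by norm_num, Real.rpow_neg (nrm_pos hx).le,
      Real.rpow_natCast]

end

end Pool.Agent.Results.MP_ca57f4_an.DyadicNullFunction
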